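import Pool.Agent.H679R2.Oct.Pol
import Pool.Agent.H679R2.Oct.Mem

/-!
# Hamiltonian Cycle is NP-complete on `H_j`-subgraph-free graphs for every `j ≥ 6`

For every `j ≥ 6` the Hamiltonian cycle problem, restricted to graphs without a subgraph
isomorphic to `H_j`, is NP-complete.

The reduction is from 3SAT.  Every literal occurrence becomes a cycle of length 8 whose eight
vertices have degree 3 and are left through long paths of vertices of degree 2, which belong to
every Hamiltonian cycle.  An octagon can be traversed in two ways only (the truth values).  Closed
loops through the octagons are closed exactly when a clause, or the consistency of the values of a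
variable, is violated; all other alternating cycles can be merged into one by switches that are
cycles of length 4.  A copy of `H_j` needs `j + 3` vertices in one of these small cycles.
-/

namespace Pool.Agent.Results.MP_2e8011_lc.NPCompleteFromSix

open Pool.Agent.NPC Pool.Agent.H679R2 Pool.Agent.NPC.H679

/-- For every `j ≥ 6`: the set of codes of `H_j`-subgraph-free Hamiltonian graphs is in `NP`, and
every language in `NP` is reduced in polynomial time to the Hamiltonian cycle problem by a function
all of whose values are codes of `H_j`-subgraph-free graphs. -/
theorem result (j : ℕ) (hj : 6 ≤ j) :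
    InNP (lang (fun I : List ℕ × List (ℕ × ℕ) => (Hj j).Free (toGraph I) ∧ HasHamCycle I)) ∧
    ∀ L : Set (List Bool), InNP L → ∃ f : List Bool → List Bool, PolyTime f ∧
      ∀ x, ∃ I : List ℕ × List (ℕ × ℕ), f x = bits I ∧ (Hj j).Free (toGraph I) ∧
        (x ∈ L ↔ HasHamCycle I) := by
  constructor
  · obtain ⟨d, hd, hP⟩ := free_decidable (Hj j)
    exact inNP_ham hd hP
  · intro L hL
    obtain ⟨f, hf, hfree, h⟩ := hardPr_ham j hj L hL
    exact ⟨fun x => bits (f x), PC.toPolyTime hf, fun x => ⟨f x, rfl, hfree x, h x⟩⟩

end Pool.Agent.Results.MP_2e8011_lc.NPCompleteFromSix
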